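import Pool.Agent.E8helper49.DD.Stm

/-! Project DD, piece `S_HARM`: existence, uniqueness and continuity of the equilibrium. -/

open Set

namespace Pool.Agent.E8helper23.DD

open Pool.Agent.E8helper49.DD

/-- the matrix of the equilibrium equations -/
noncomputable def K (w : Fin 12 → Fin 12 → ℝ) : Matrix (Fin 12) (Fin 12) ℝ :=
  Matrix.of fun v u => if 3 ≤ v then
    -∑ i, w v (nbr v i) * ((if nbr v i = u then 1 else 0) - (if v = u then 1 else 0))
    else if v = u then 1 else 0

theorem K_mulVec (w : Fin 12 → Fin 12 → ℝ) (g : Fin 12 → ℝ) (v : Fin 12) :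
    (K w).mulVec g v = if 3 ≤ v then -∑ i, w v (nbr v i) * (g (nbr v i) - g v) else g v := by
  unfold K Matrix.mulVec dotProduct
  simp only [Matrix.of_apply]
  split_ifs with hv
  · have h1 : ∀ u : Fin 12,
        (-∑ i, w v (nbr v i) * ((if nbr v i = u then (1:ℝ) else 0) - (if v = u then 1 else 0))) * g u =
        -∑ i, w v (nbr v i) * ((if nbr v i = u then g u else 0) - (if v = u then g u else 0)) := by
      intro u
      rw [neg_mul, Finset.sum_mul]
      congr 1
      refine Finset.sum_congr rfl fun i _ => ?_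
      split_ifs <;> ring
    rw [Finset.sum_congr rfl fun u _ => h1 u, Finset.sum_neg_distrib, Finset.sum_comm]
    congr 1
    refine Finset.sum_congr rfl fun i _ => ?_
    rw [← Finset.mul_sum, Finset.sum_sub_distrib]
    simp
  · simp

theorem det_ne (h : S_MP) {w : Fin 12 → Fin 12 → ℝ} (hw : Weights w) : (K w).det ≠ 0 := by
  intro h0
  obtain ⟨g, hg, hK⟩ := Matrix.exists_mulVec_eq_zero_iff.2 h0
  apply hg
  have h1 : ∀ v, ¬ 3 ≤ v → g v = 0 := by
    intro v hv
    have := congrFun hK v
    rw [K_mulVec, if_neg hv] at this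
    simpa using this
  have h2 : Harm w g := by
    intro v hv
    have := congrFun hK v
    rw [K_mulVec, if_pos hv] at this
    have h3 : -∑ i, w v (nbr v i) * (g (nbr v i) - g v) = 0 := by simpa using this
    linarith
  have h3 : Harm w (fun v => - g v) := by
    intro v hv
    have := h2 v hv
    have h4 : ∑ i, w v (nbr v i) * (- g (nbr v i) - - g v) =
        - ∑ i, w v (nbr v i) * (g (nbr v i) - g v) := by
      rw [← Finset.sum_neg_distrib]
      exact Finset.sum_congr rfl fun i _ => by ring
    show ∑ i, w v (nbr v i) * (- g (nbr v i) - - g v) = 0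
    rw [h4, this, neg_zero]
  have h4 := h w g 0 hw h2 (fun v hv => (h1 v hv).le)
  have h5 := h w (fun v => - g v) 0 hw h3 (fun v hv => by simp [h1 v hv])
  funext v
  have h6 := h4 v
  have h7 := h5 v
  simp only [Pi.zero_apply]
  linarith

theorem cont_inv {n : Type} [Fintype n] [DecidableEq n] {A : ℝ → Matrix n n ℝ} {s : Set ℝ}
    (hA : ContinuousOn A s) (hd : ∀ t ∈ s, (A t).det ≠ 0) (r : n → ℝ) (v : n) :
    ContinuousOn (fun t => ((A t)⁻¹.mulVec r) v) s := by
  have hdet : ContinuousOn (fun t => (A t).det) s :=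
    (Continuous.matrix_det continuous_id : Continuous fun M : Matrix n n ℝ => M.det).comp_continuousOn
      hA
  have hadj : ContinuousOn (fun t => ((A t).adjugate.mulVec r) v) s :=
    ((continuous_apply v).comp (Continuous.matrix_mulVec (Continuous.matrix_adjugate continuous_id)
      continuous_const) : Continuous fun M : Matrix n n ℝ => (M.adjugate.mulVec r) v).comp_continuousOn
      hA
  have h1 : ∀ t ∈ s, ((A t)⁻¹.mulVec r) v = (A t).det⁻¹ * ((A t).adjugate.mulVec r) v := by
    intro t _
    rw [Matrix.inv_def, Ring.inverse_eq_inv', Matrix.smul_mulVec, Pi.smul_apply, smul_eq_mul]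
  exact ContinuousOn.congr ((hdet.inv₀ hd).mul hadj) h1

theorem t_HARM (h : S_MP) : S_HARM := by
  intro w hwc hw β
  set r : Fin 12 → ℝ := fun v => if 3 ≤ v then 0 else β v with hr
  have hKc : ContinuousOn (fun t => K (w t)) (Icc 0 1) := by
    refine continuousOn_pi.2 fun v => continuousOn_pi.2 fun u => ?_
    unfold K
    simp only [Matrix.of_apply]
    split_ifs with hv
    all_goals first
      | exact continuousOn_const
      | exact (continuousOn_finsetSum _ fun i _ => (hwc _ _).mul continuousOn_const).neg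
  have hinv : ∀ v, ContinuousOn (fun t => ((K (w t))⁻¹.mulVec r) v) (Icc 0 1) :=
    fun v => cont_inv hKc (fun t ht => det_ne h (hw t ht)) r v
  refine ⟨fun t => (K (w t))⁻¹.mulVec r, hinv, ?_⟩
  intro t ht
  have hd := det_ne h (hw t ht)
  have hu : IsUnit (K (w t)).det := isUnit_iff_ne_zero.2 hd
  have hX : (K (w t)).mulVec ((K (w t))⁻¹.mulVec r) = r := by
    rw [Matrix.mulVec_mulVec, Matrix.mul_nonsing_inv _ hu, Matrix.one_mulVec]
  refine ⟨?_, ?_, ?_⟩
  · intro v hv
    have := congrFun hX v
    rw [K_mulVec, if_neg hv] at this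
    show ((K (w t))⁻¹.mulVec r) v = β v
    rw [this, hr]
    simp only [if_neg hv]
  · intro v hv
    have := congrFun hX v
    rw [K_mulVec, if_pos hv, hr] at this
    simp only [if_pos hv] at this
    linarith
  · intro g hg hH
    have h1 : (K (w t)).mulVec g = r := by
      funext v
      rw [K_mulVec, hr]
      by_cases hv : 3 ≤ v
      · simp only [if_pos hv]
        rw [hH v hv, neg_zero]
      · simp only [if_neg hv]
        exact hg v hv
    show g = (K (w t))⁻¹.mulVec r
    rw [← h1, Matrix.mulVec_mulVec, Matrix.nonsing_inv_mul _ hu, Matrix.one_mulVec]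

end Pool.Agent.E8helper23.DD
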