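import Pool.Agent.E8helper49.DD.Stm

/-! Project DD, piece `S_PROJ`: two polytopes represented by the same configuration are projectively
equivalent. -/

open Set

namespace Pool.Agent.E8helper23.DD

open Pool.Agent.E8helper49.DD

theorem det4_upd (a b c u : Fin 4 → ℝ) :
    det4 a b c u = ((Matrix.of ![a, b, c, 0]).updateRow 3 u).det := by
  unfold det4
  congr 1
  ext i j
  fin_cases i <;> simp [Matrix.updateRow_apply]

theorem det4_lin (a b c u e : Fin 4 → ℝ) (s : ℝ) :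
    det4 a b c (u - s • e) = det4 a b c u - s * det4 a b c e := by
  rw [det4_upd, det4_upd a b c u, det4_upd a b c e, sub_eq_add_neg, ← neg_smul,
    Matrix.det_updateRow_add, Matrix.det_updateRow_smul]
  ring

/-- four rows orthogonal to a nonzero vector -/
theorem det4_zero (a b c u y : Fin 4 → ℝ) (hy : y ≠ 0) (ha : a ⬝ᵥ y = 0) (hb : b ⬝ᵥ y = 0)
    (hc : c ⬝ᵥ y = 0) (hu : u ⬝ᵥ y = 0) : det4 a b c u = 0 := by
  unfold det4
  rw [← Matrix.exists_mulVec_eq_zero_iff]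
  refine ⟨y, hy, ?_⟩
  funext i
  fin_cases i
  · exact ha
  · exact hb
  · exact hc
  · exact hu

theorem det4_dot (a b c e y : Fin 4 → ℝ) (ha : a ⬝ᵥ y = 0) (hb : b ⬝ᵥ y = 0)
    (hc : c ⬝ᵥ y = 0) (he : e ⬝ᵥ y = 1) (u : Fin 4 → ℝ) :
    det4 a b c u = (u ⬝ᵥ y) * det4 a b c e := by
  have hy : y ≠ 0 := by
    rintro rfl
    simp at he
  have h1 := det4_zero a b c (u - (u ⬝ᵥ y) • e) y hy ha hb hc (by
    rw [sub_dotProduct, smul_dotProduct, he]
    simp)
  rw [det4_lin] at h1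
  linarith

theorem dot_hat (c : Fin 4 → ℝ) (x : Fin 3 → ℝ) :
    c ⬝ᵥ hat x = c 0 * x 0 + c 1 * x 1 + c 2 * x 2 + c 3 := by
  simp [hat, dotProduct, Fin.sum_univ_succ]
  ring

theorem dot_castSucc (c : Fin 4 → ℝ) (x : Fin 3 → ℝ) :
    (fun j : Fin 3 => - c j.castSucc) ⬝ᵥ x = c 3 - c ⬝ᵥ hat x := by
  rw [dot_hat]
  simp [dotProduct, Fin.sum_univ_succ]
  ring

theorem e4_dot (y : Fin 4 → ℝ) : e4 ⬝ᵥ y = y 3 := by
  simp [e4, dotProduct, Fin.sum_univ_succ]

theorem dot_mulVec (a y : Fin 4 → ℝ) (A : Matrix (Fin 4) (Fin 4) ℝ) :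
    a ⬝ᵥ A.mulVec y = Matrix.vecMul a A ⬝ᵥ y := by
  rw [Matrix.dotProduct_mulVec]

/-- the second interior covector is positive on the polytope -/
theorem pos_of (hP : S_PRES) (h : Fin 12 → Fin 4 → ℝ) (e e' : Fin 4 → ℝ)
    (A : Matrix (Fin 4) (Fin 4) ℝ) (hg : Good h e) (hg' : Good h e') (hA : A.det ≠ 0)
    (he : Matrix.vecMul e A = e4) :
    ∀ x ∈ Poly (fun i => Matrix.vecMul (h i) A), 0 < e' ⬝ᵥ A.mulVec (hat x) := by
  obtain ⟨v, h1, -, h3⟩ := hP h e A hg hA he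
  have key : ∀ T, 0 < e' ⬝ᵥ A.mulVec (hat (v T)) := by
    intro T
    have hr : ∀ r, h (face T r) ⬝ᵥ A.mulVec (hat (v T)) = 0 := by
      intro r
      have h4 := (h3 T (face T r)).2 ⟨r, rfl⟩
      rw [dot_castSucc] at h4
      rw [dot_mulVec]
      linarith
    have h5 : e ⬝ᵥ A.mulVec (hat (v T)) = 1 := by
      rw [dot_mulVec, he, e4_dot]
      rfl
    have h6 := det4_dot _ _ _ e _ (hr 0) (hr 1) (hr 2) h5 e'
    have h7 := hg.2 T
    have h8 := hg'.2 T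
    rw [h6] at h8
    exact (mul_pos_iff_of_pos_right h7).1 h8
  intro x hx
  have hx' : x ∈ convexHull ℝ (Set.range v) := h1 ▸ hx
  have hc : Convex ℝ {x : Fin 3 → ℝ | 0 < e' ⬝ᵥ A.mulVec (hat x)} := by
    intro x hx y hy a b ha hb hab
    change 0 < e' ⬝ᵥ A.mulVec (hat x) at hx
    change 0 < e' ⬝ᵥ A.mulVec (hat y) at hy
    change 0 < e' ⬝ᵥ A.mulVec (hat (a • x + b • y))
    rw [dot_mulVec, dot_hat] at hx hy ⊢
    have h9 : Matrix.vecMul e' A 0 * (a • x + b • y) 0 + Matrix.vecMul e' A 1 * (a • x + b • y) 1 +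
        Matrix.vecMul e' A 2 * (a • x + b • y) 2 + Matrix.vecMul e' A 3 =
        a * (Matrix.vecMul e' A 0 * x 0 + Matrix.vecMul e' A 1 * x 1 +
        Matrix.vecMul e' A 2 * x 2 + Matrix.vecMul e' A 3) +
        b * (Matrix.vecMul e' A 0 * y 0 + Matrix.vecMul e' A 1 * y 1 +
        Matrix.vecMul e' A 2 * y 2 + Matrix.vecMul e' A 3) := by
      simp only [Pi.add_apply, Pi.smul_apply, smul_eq_mul]
      linear_combination (-(Matrix.vecMul e' A 3)) * hab
    rw [h9]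
    rcases ha.lt_or_eq with h10 | h10
    · have := mul_pos h10 hx
      have := mul_nonneg hb hy.le
      linarith
    · rw [← h10] at hab ⊢
      have hb1 : b = 1 := by linarith
      rw [hb1]
      linarith
  exact convexHull_min (by rintro _ ⟨T, rfl⟩; exact key T) hc hx'

/-- the image of a point -/
noncomputable def im (M : Matrix (Fin 4) (Fin 4) ℝ) (x : Fin 3 → ℝ) : Fin 3 → ℝ :=
  fun j => (M.mulVec (hat x)) j.castSucc / (M.mulVec (hat x)) 3

theorem hat_im (M : Matrix (Fin 4) (Fin 4) ℝ) (x : Fin 3 → ℝ) (h : (M.mulVec (hat x)) 3 ≠ 0) :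
    hat (im M x) = ((M.mulVec (hat x)) 3)⁻¹ • M.mulVec (hat x) := by
  funext j
  fin_cases j
  · simp [hat, im, div_eq_inv_mul]
  · simp [hat, im, div_eq_inv_mul]
  · simp [hat, im, div_eq_inv_mul]
  · simp only [hat, Pi.smul_apply, smul_eq_mul]
    exact (inv_mul_cancel₀ h).symm

theorem last_eq (A A' : Matrix (Fin 4) (Fin 4) ℝ) (hA' : A'.det ≠ 0) (e' : Fin 4 → ℝ)
    (he' : Matrix.vecMul e' A' = e4) (x : Fin 3 → ℝ) :
    ((A'⁻¹ * A).mulVec (hat x)) 3 = e' ⬝ᵥ A.mulVec (hat x) := by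
  rw [← e4_dot ((A'⁻¹ * A).mulVec (hat x)), ← he', ← dot_mulVec, Matrix.mulVec_mulVec, ← Matrix.mul_assoc,
    Matrix.mul_nonsing_inv _ (isUnit_iff_ne_zero.2 hA'), Matrix.one_mul]

theorem im_mem (h : Fin 12 → Fin 4 → ℝ) (A A' : Matrix (Fin 4) (Fin 4) ℝ) (hA' : A'.det ≠ 0)
    (x : Fin 3 → ℝ) (hx : x ∈ Poly (fun i => Matrix.vecMul (h i) A))
    (hp : 0 < ((A'⁻¹ * A).mulVec (hat x)) 3) :
    im (A'⁻¹ * A) x ∈ Poly (fun i => Matrix.vecMul (h i) A') := by
  intro i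
  rw [hat_im _ _ hp.ne', dotProduct_smul, smul_eq_mul, ← dot_mulVec, Matrix.mulVec_mulVec,
    ← Matrix.mul_assoc, Matrix.mul_nonsing_inv _ (isUnit_iff_ne_zero.2 hA'), Matrix.one_mul,
    dot_mulVec]
  exact mul_nonneg (inv_nonneg.2 hp.le) (hx i)

theorem t_PROJ (hP : S_PRES) : S_PROJ := by
  rintro h P P' ⟨e, A, hg, hA, he, rfl⟩ ⟨e', A', hg', hA', he', rfl⟩
  have p1 := pos_of hP h e e' A hg hg' hA he
  have p2 := pos_of hP h e' e A' hg' hg hA' he'
  refine ⟨A'⁻¹ * A, ?_, ?_, ?_⟩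
  · rw [Matrix.det_mul, Matrix.det_nonsing_inv, Ring.inverse_eq_inv']
    exact mul_ne_zero (inv_ne_zero hA') hA
  · intro x hx
    rw [last_eq A A' hA' e' he']
    exact (p1 x hx).ne'
  · ext x'
    constructor
    · intro hx'
      have q : 0 < ((A⁻¹ * A').mulVec (hat x')) 3 := by
        rw [last_eq A' A hA e he]
        exact p2 x' hx'
      refine ⟨im (A⁻¹ * A') x', im_mem h A' A hA x' hx' q, ?_⟩
      have h1 : (A'⁻¹ * A).mulVec (hat (im (A⁻¹ * A') x')) =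
          (((A⁻¹ * A').mulVec (hat x')) 3)⁻¹ • hat x' := by
        rw [hat_im _ _ q.ne', Matrix.mulVec_smul, Matrix.mulVec_mulVec]
        congr 1
        have h2 : A'⁻¹ * A * (A⁻¹ * A') = 1 := by
          rw [Matrix.mul_assoc, ← Matrix.mul_assoc A, Matrix.mul_nonsing_inv _
            (isUnit_iff_ne_zero.2 hA), Matrix.one_mul, Matrix.nonsing_inv_mul _
            (isUnit_iff_ne_zero.2 hA')]
        rw [h2, Matrix.one_mulVec]
      funext j
      simp only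
      rw [h1]
      simp only [Pi.smul_apply, smul_eq_mul]
      have h3 : hat x' 3 = 1 := rfl
      have h4 : hat x' j.castSucc = x' j := by fin_cases j <;> rfl
      rw [h3, h4, mul_one, mul_div_assoc, mul_comm, div_mul_cancel₀ _ (inv_ne_zero q.ne')]
    · rintro ⟨x, hx, rfl⟩
      exact im_mem h A A' hA' x hx (by rw [last_eq A A' hA' e' he']; exact p1 x hx)

end Pool.Agent.E8helper23.DD
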